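import Pool.Agent.R779.FJ.Col

/-!
# Kernels which can be displaced from the whole group

Owner helper863.
-/

set_option autoImplicit false

namespace Pool.Agent.U863.FK

open Pool.Agent.Y110.FJ

/-- **the displacement criterion** -/
theorem displaced (C : ∀ (G : Type) [Group G], Prop) (hC : ClosedE C)
    (G : Type) [Group G] (N : Subgroup G) [N.Normal] (hQ : C (G ⧸ N))
    (W : Type) [Group W] (P : Subgroup W) (hP : C P) (j : G →* W)
    (hj : ∀ n ∈ N, j n = 1 → n = 1) (hN : ∀ n ∈ N, j n ∈ P)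
    (hnor : ∀ g : G, ∀ x ∈ P, j g * x * (j g)⁻¹ ∈ P)
    (hdisp : ∀ (g : G) (E : Set G), E.Finite → E ⊆ N →
      ∃ τ ∈ P, ∀ x ∈ E, Commute (τ * j x * τ⁻¹) (j g)) : C G := by
  refine Pool.Agent.R779.FJ.t_crit Pool.Agent.Y529.FJ.t_ext
    (Pool.Agent.Y961.FJ.t_perm Pool.Agent.Y529.FJ.t_ext) C hC G N hQ ?_
  intro g E hE hEN
  obtain ⟨τ, hτ, hcom⟩ := hdisp g E hE hEN
  have hle : Subgroup.closure (E ∪ (fun x => g * x * g⁻¹) '' E) ≤ N := by
    rw [Subgroup.closure_le]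
    rintro x (hx | ⟨y, hy, rfl⟩)
    · exact hEN hx
    · exact Subgroup.Normal.conj_mem inferInstance y (hEN hy) g
  refine ⟨P, inferInstance,
    { toFun := fun x => ⟨j x.1, hN x.1 (hle x.2)⟩
      map_one' := Subtype.ext (map_one j)
      map_mul' := fun a b => Subtype.ext (map_mul j a.1 b.1) },
    ⟨j g * τ⁻¹ * (j g)⁻¹ * τ, mul_mem (hnor g _ (inv_mem hτ)) hτ⟩, hP, ?_, ?_⟩
  · rw [injective_iff_map_eq_one]
    intro x hx
    exact Subtype.ext (hj x.1 (hle x.2) (congrArg Subtype.val hx))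
  · intro x y hx hy
    apply Subtype.ext
    show j y.1 = (j g * τ⁻¹ * (j g)⁻¹ * τ) * j x.1 * (j g * τ⁻¹ * (j g)⁻¹ * τ)⁻¹
    rw [hy, map_mul, map_mul, map_inv]
    have h1 : (j g)⁻¹ * (τ * j x.1 * τ⁻¹) * j g = τ * j x.1 * τ⁻¹ := by
      rw [mul_assoc, (hcom x.1 hx).eq, inv_mul_cancel_left]
    have h2 : (j g * τ⁻¹ * (j g)⁻¹ * τ) * j x.1 * (j g * τ⁻¹ * (j g)⁻¹ * τ)⁻¹ =
        j g * (τ⁻¹ * ((j g)⁻¹ * (τ * j x.1 * τ⁻¹) * j g) * τ) * (j g)⁻¹ := by group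
    rw [h2, h1]
    group

end Pool.Agent.U863.FK
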