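import Pool.Agent.U863.FK.Disp
import Pool.Agent.Y430.SS.Lf

/-!
# Finitary isometries of direct sums of copies of a module

Owner helper863.
-/

set_option autoImplicit false

namespace Pool.Agent.U863.FK

open Pool.Agent.Y110.FJ

section defs

variable (R : Type) {M S : Type} [Ring R] [AddCommGroup M] [Module R M] [AddCommMonoid S] {k : ℕ}
  (φ : (Fin k → M) → S)

/-- the form on the direct sum of the copies of `M` indexed by `I` -/
noncomputable def form {I : Type} (v : Fin k → (I →₀ M)) : S := ∑ᶠ i, φ (fun a => v a i)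

/-- the group of the automorphisms of the direct sum which preserve the form -/
def Isom (I : Type) : Subgroup ((I →₀ M) ≃ₗ[R] (I →₀ M)) where
  carrier := {x | ∀ v : Fin k → (I →₀ M), form φ (fun a => x (v a)) = form φ v}
  one_mem' := fun _ => rfl
  mul_mem' := by
    intro x y hx hy v
    exact (hx fun a => y (v a)).trans (hy v)
  inv_mem' := by
    intro x hx v
    have h1 := hx fun a => x⁻¹ (v a)
    rw [← h1]
    congr 1
    funext a
    exact x.apply_symm_apply (v a)

variable {R}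

/-- `x` acts only on the coordinates in `K` -/
def Supp {I : Type} (K : Finset I) (x : (I →₀ M) ≃ₗ[R] (I →₀ M)) : Prop :=
  (∀ v : I →₀ M, (∀ i ∈ K, v i = 0) → x v = v) ∧ ∀ (v : I →₀ M) (i : I), i ∉ K → x v i = v i

/-- `x` acts only on finitely many coordinates -/
def Finitary {I : Type} (x : (I →₀ M) ≃ₗ[R] (I →₀ M)) : Prop := ∃ K : Finset I, Supp K x

/-- `g` and its inverse have finite rows and columns: for every finite set `J` of coordinates there is
a finite set `J'` such that `g` maps vectors with support in `J` to vectors with support in `J'`, and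
`g⁻¹` maps vectors with support outside `J'` to vectors with support outside `J` -/
def BiFinite {I : Type} (g : (I →₀ M) ≃ₗ[R] (I →₀ M)) : Prop :=
  ∀ J : Finset I, ∃ J' : Finset I,
    (∀ v : I →₀ M, (∀ i, i ∉ J → v i = 0) → ∀ i, i ∉ J' → g v i = 0) ∧
    (∀ v : I →₀ M, (∀ i ∈ J', v i = 0) → ∀ i ∈ J, g.symm v i = 0)

end defs

section basic

variable {R M S : Type} [Ring R] [AddCommGroup M] [Module R M] [AddCommMonoid S] {k : ℕ}
  {φ : (Fin k → M) → S} {I : Type}

theorem Supp.mono {K K' : Finset I} (h : K ⊆ K') {x : (I →₀ M) ≃ₗ[R] (I →₀ M)} (hx : Supp K x) :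
    Supp K' x :=
  ⟨fun v hv => hx.1 v fun i hi => hv i (h hi), fun v i hi => hx.2 v i fun hi' => hi (h hi')⟩

theorem Supp.one (K : Finset I) : Supp K (1 : (I →₀ M) ≃ₗ[R] (I →₀ M)) :=
  ⟨fun _ _ => rfl, fun _ _ _ => rfl⟩

theorem Supp.mul {K : Finset I} {x y : (I →₀ M) ≃ₗ[R] (I →₀ M)} (hx : Supp K x) (hy : Supp K y) :
    Supp K (x * y) := by
  refine ⟨fun v hv => ?_, fun v i hi => ?_⟩
  · show x (y v) = v
    rw [hy.1 v hv, hx.1 v hv]
  · show x (y v) i = v i
    rw [hx.2 _ i hi, hy.2 v i hi]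

theorem Supp.inv {K : Finset I} {x : (I →₀ M) ≃ₗ[R] (I →₀ M)} (hx : Supp K x) :
    Supp K x⁻¹ := by
  have h1 : ∀ v, x (x⁻¹ v) = v := fun v => x.apply_symm_apply v
  refine ⟨fun v hv => ?_, fun v i hi => ?_⟩
  · show x.symm v = v
    rw [LinearEquiv.symm_apply_eq]
    exact (hx.1 v hv).symm
  · have h2 := hx.2 (x⁻¹ v) i hi
    rw [h1] at h2
    exact h2.symm

/-- conjugation by an element with finite rows and columns -/
theorem Supp.conj {K K' : Finset I} {x g : (I →₀ M) ≃ₗ[R] (I →₀ M)} (hx : Supp K x)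
    (h1 : ∀ v : I →₀ M, (∀ i, i ∉ K → v i = 0) → ∀ i, i ∉ K' → g v i = 0)
    (h2 : ∀ v : I →₀ M, (∀ i ∈ K', v i = 0) → ∀ i ∈ K, g.symm v i = 0) :
    Supp K' (g * x * g⁻¹) := by
  have h3 : ∀ v, g (g.symm v) = v := fun v => g.apply_symm_apply v
  refine ⟨fun v hv => ?_, fun v i hi => ?_⟩
  · show g (x (g.symm v)) = v
    rw [hx.1 _ (h2 v hv), h3]
  · show g (x (g.symm v)) i = v i
    have h4 : x (g.symm v) = g.symm v + (x (g.symm v) - g.symm v) := by abel
    rw [h4, map_add, h3, Finsupp.add_apply, h1 _ (fun j hj => ?_) i hi, add_zero]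
    rw [Finsupp.sub_apply, hx.2 _ j hj, sub_self]

theorem Finitary.conj {x g : (I →₀ M) ≃ₗ[R] (I →₀ M)} (hx : Finitary x) (hg : BiFinite g) :
    Finitary (g * x * g⁻¹) := by
  obtain ⟨K, hK⟩ := hx
  obtain ⟨K', h1, h2⟩ := hg K
  exact ⟨K', hK.conj h1 h2⟩

variable (R φ I)

/-- the finitary isometries with coordinates in `K` -/
def PK (K : Finset I) : Subgroup ((I →₀ M) ≃ₗ[R] (I →₀ M)) where
  carrier := {x | x ∈ Isom R φ I ∧ Supp K x}
  one_mem' := ⟨one_mem _, Supp.one K⟩
  mul_mem' := fun hx hy => ⟨mul_mem hx.1 hy.1, hx.2.mul hy.2⟩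
  inv_mem' := fun hx => ⟨inv_mem hx.1, hx.2.inv⟩

/-- the finitary isometries -/
def FinG : Subgroup ((I →₀ M) ≃ₗ[R] (I →₀ M)) where
  carrier := {x | x ∈ Isom R φ I ∧ Finitary x}
  one_mem' := ⟨one_mem _, ∅, Supp.one ∅⟩
  mul_mem' := by
    classical
    rintro x y ⟨hx, K, hK⟩ ⟨hy, K', hK'⟩
    exact ⟨mul_mem hx hy, K ∪ K', (hK.mono Finset.subset_union_left).mul
      (hK'.mono Finset.subset_union_right)⟩
  inv_mem' := by
    rintro x ⟨hx, K, hK⟩
    exact ⟨inv_mem hx, K, hK.inv⟩

variable {R φ I}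

theorem form_finite (hφ : φ 0 = 0) (v : Fin k → (I →₀ M)) :
    (Function.support fun i => φ (fun a => v a i)).Finite := by
  classical
  refine (Set.finite_iUnion fun a : Fin k => (v a).hasFiniteSupport).subset ?_
  intro i hi
  by_contra h
  apply hi
  have h1 : (fun a => v a i) = 0 := by
    funext a
    by_contra h2
    exact h (Set.mem_iUnion.2 ⟨a, by simpa using h2⟩)
  show φ (fun a => v a i) = 0
  rw [h1, hφ]

/-! ### the group of finite rank -/

section rank

variable (K : Finset I)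

/-- extension by zero -/
noncomputable def ext0 : ({i // i ∈ K} →₀ M) →ₗ[R] (I →₀ M) :=
  Finsupp.lmapDomain M R Subtype.val

/-- restriction -/
noncomputable def res0 : (I →₀ M) →ₗ[R] ({i // i ∈ K} →₀ M) :=
  Finsupp.lsubtypeDomain (fun i => i ∈ K)

theorem ext0_mem (w : {i // i ∈ K} →₀ M) (i : {i // i ∈ K}) :
    ext0 (R := R) K w i.1 = w i := by
  exact Finsupp.mapDomain_apply Subtype.val_injective w i

theorem ext0_not_mem (w : {i // i ∈ K} →₀ M) (i : I) (hi : i ∉ K) :
    ext0 (R := R) K w i = 0 := by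
  refine Finsupp.mapDomain_of_notMem_range w i ?_
  rintro ⟨j, rfl⟩
  exact hi j.2

theorem res0_apply (v : I →₀ M) (i : {i // i ∈ K}) : res0 (R := R) K v i = v i.1 := rfl

theorem res0_ext0 (w : {i // i ∈ K} →₀ M) : res0 (R := R) K (ext0 (R := R) K w) = w := by
  ext i
  rw [res0_apply, ext0_mem]

theorem ext0_res0 (v : I →₀ M) (hv : ∀ i, i ∉ K → v i = 0) :
    ext0 (R := R) K (res0 (R := R) K v) = v := by
  ext i
  by_cases hi : i ∈ K
  · exact (ext0_mem K _ ⟨i, hi⟩).trans rfl
  · rw [ext0_not_mem K _ i hi, hv i hi]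

/-- the restriction of `x` to the coordinates in `K` -/
noncomputable def cut (x : (I →₀ M) ≃ₗ[R] (I →₀ M)) :
    ({i // i ∈ K} →₀ M) →ₗ[R] ({i // i ∈ K} →₀ M) :=
  (res0 K).comp ((x : (I →₀ M) →ₗ[R] (I →₀ M)).comp (ext0 K))

theorem cut_mul {x y : (I →₀ M) ≃ₗ[R] (I →₀ M)} (hy : Supp K y)
    (w : {i // i ∈ K} →₀ M) : cut (R := R) K (x * y) w = cut (R := R) K x (cut (R := R) K y w) := by
  show res0 (R := R) K (x (y (ext0 (R := R) K w))) =
    res0 (R := R) K (x (ext0 (R := R) K (res0 (R := R) K (y (ext0 (R := R) K w)))))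
  rw [ext0_res0 K (y (ext0 K w))]
  intro i hi
  rw [hy.2 _ i hi, ext0_not_mem K w i hi]

theorem cut_one (w : {i // i ∈ K} →₀ M) :
    cut (R := R) K (1 : (I →₀ M) ≃ₗ[R] (I →₀ M)) w = w := res0_ext0 K w

theorem form_ext0 (hφ : φ 0 = 0) (w : Fin k → ({i // i ∈ K} →₀ M)) :
    form φ (fun a => ext0 (R := R) K (w a)) = form φ w := by
  have h2 : ∀ i : {i // i ∈ K}, (φ fun a => ext0 (R := R) K (w a) i.1) = φ fun a => w a i := by
    intro i
    congr 1
    funext a
    exact ext0_mem K (w a) i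
  rw [form, form, ← finsum_congr h2]
  refine Eq.trans ?_ (finsum_subtype_eq_finsum_cond (fun i => i ∈ K)
    (f := fun i => φ fun a => ext0 (R := R) K (w a) i)).symm
  apply finsum_congr
  intro i
  by_cases hi : i ∈ K
  · simp [hi]
  · have h3 : (fun a => ext0 (R := R) K (w a) i) = 0 := by
      funext a
      exact ext0_not_mem K (w a) i hi
    simp only [hi, h3, hφ]
    simp

theorem ext0_cut {x : (I →₀ M) ≃ₗ[R] (I →₀ M)} (hx : Supp K x) (w : {i // i ∈ K} →₀ M) :
    ext0 (R := R) K (cut (R := R) K x w) = x (ext0 (R := R) K w) := by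
  refine ext0_res0 K (x (ext0 K w)) fun i hi => ?_
  rw [hx.2 _ i hi, ext0_not_mem K w i hi]

theorem cut_form (hφ : φ 0 = 0) {x : (I →₀ M) ≃ₗ[R] (I →₀ M)} (hx : x ∈ PK R φ I K)
    (w : Fin k → ({i // i ∈ K} →₀ M)) :
    form φ (fun a => cut (R := R) K x (w a)) = form φ w := by
  refine (form_ext0 (R := R) K hφ _).symm.trans ?_
  refine Eq.trans ?_ ((hx.1 fun a => ext0 (R := R) K (w a)).trans (form_ext0 (R := R) K hφ w))
  congr 1
  funext a
  exact ext0_cut K hx.2 (w a)

/-- the restriction to the coordinates in `K` as a homomorphism -/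
noncomputable def cutHom (hφ : φ 0 = 0) : PK R φ I K →* Isom R φ {i // i ∈ K} where
  toFun x := ⟨LinearEquiv.ofLinearMap (cut K x.1) (cut K x.1⁻¹)
      (LinearMap.ext fun w => by
        rw [LinearMap.comp_apply, ← cut_mul K x.2.2.inv w, mul_inv_cancel]
        exact cut_one K w)
      (LinearMap.ext fun w => by
        rw [LinearMap.comp_apply, ← cut_mul K x.2.2 w, inv_mul_cancel]
        exact cut_one K w), cut_form K hφ x.2⟩
  map_one' := by
    apply Subtype.ext
    apply LinearEquiv.ext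
    exact cut_one K
  map_mul' x y := by
    apply Subtype.ext
    apply LinearEquiv.ext
    exact cut_mul K y.2.2

theorem cutHom_injective (hφ : φ 0 = 0) : Function.Injective (cutHom (R := R) K hφ) := by
  intro x y hxy
  have h1 : ∀ w, cut (R := R) K x.1 w = cut (R := R) K y.1 w := fun w =>
    congrArg (fun z : Isom R φ {i // i ∈ K} =>
      (z : ({i // i ∈ K} →₀ M) ≃ₗ[R] ({i // i ∈ K} →₀ M)) w) hxy
  apply Subtype.ext
  apply LinearEquiv.ext
  intro v
  -- split `v`
  have h2 : ∀ z : (I →₀ M) ≃ₗ[R] (I →₀ M), Supp K z →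
      z v = ext0 (R := R) K (cut (R := R) K z (res0 (R := R) K v)) +
        (v - ext0 (R := R) K (res0 (R := R) K v)) := by
    intro z hz
    rw [ext0_cut K hz]
    have h3 : z (v - ext0 (R := R) K (res0 (R := R) K v)) =
        v - ext0 (R := R) K (res0 (R := R) K v) := by
      refine hz.1 _ fun i hi => ?_
      rw [Finsupp.sub_apply, ext0_mem K _ ⟨i, hi⟩]
      exact sub_self _
    rw [← h3, map_sub]
    abel
  rw [h2 x.1 x.2.2, h2 y.1 y.2.2, h1]

end rank

theorem isom_congr (C : ∀ (G : Type) [Group G], Prop) (hC : Pool.Agent.Y462.SS.Closed C)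
    {I J : Type} (e : I ≃ J) (h : C (Isom R φ J)) : C (Isom R φ I) := by
  let E : (I →₀ M) ≃ₗ[R] (J →₀ M) := Finsupp.domLCongr e
  have hE : ∀ (v : I →₀ M) (i : I), E v (e i) = v i := by
    intro v i
    show (Finsupp.domLCongr e v : J →₀ M) (e i) = v i
    rw [Finsupp.domLCongr_apply, Finsupp.domCongr_apply, Finsupp.equivMapDomain_apply,
      Equiv.symm_apply_apply]
  have hE' : ∀ (v : J →₀ M) (i : I), E.symm v i = v (e i) := by
    intro v i
    rw [← hE (E.symm v) i, LinearEquiv.apply_symm_apply]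
  have hf : ∀ v : Fin k → (I →₀ M), form φ (fun a => E (v a)) = form φ v := by
    intro v
    rw [form, form, ← finsum_comp_equiv e]
    exact finsum_congr fun i => by congr 1; funext a; exact hE _ _
  have hf' : ∀ v : Fin k → (J →₀ M), form φ (fun a => E.symm (v a)) = form φ v := by
    intro v
    rw [← hf]
    congr 1
    funext a
    exact LinearEquiv.apply_symm_apply _ _
  refine hC.of_injective _ (Isom R φ J)
    { toFun := fun x => ⟨(E.symm.trans x.1).trans E, fun v => by
        show form φ (fun a => E (x.1 (E.symm (v a)))) = _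
        rw [hf, x.2 fun a => E.symm (v a), hf']⟩
      map_one' := by
        apply Subtype.ext
        apply LinearEquiv.ext
        intro v
        exact E.apply_symm_apply v
      map_mul' := fun x y => by
        apply Subtype.ext
        apply LinearEquiv.ext
        intro v
        show E (x.1 (y.1 (E.symm v))) = E (x.1 (E.symm (E (y.1 (E.symm v)))))
        rw [E.symm_apply_apply] } ?_ h
  rw [injective_iff_map_eq_one]
  intro x hx
  apply Subtype.ext
  apply LinearEquiv.ext
  intro v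
  have h1 : E (x.1 (E.symm (E v))) = E v :=
    congrArg (fun z : Isom R φ J => (z : (J →₀ M) ≃ₗ[R] (J →₀ M)) (E v)) hx
  rw [E.symm_apply_apply] at h1
  exact E.injective h1

/-- the finitary isometries are in the class -/
theorem C_FinG (C : ∀ (G : Type) [Group G], Prop) (hC : Pool.Agent.Y462.SS.Closed C)
    (hφ : φ 0 = 0) (hU : ∀ n : ℕ, C (Isom R φ (Fin n))) : C (FinG R φ I) := by
  classical
  refine Pool.Agent.Y430.SS.of_directed hC (FinG R φ I) (Finset I)
    (fun i j => ⟨i ∪ j, Finset.subset_union_left, Finset.subset_union_right⟩)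
    (fun K => (PK R φ I K).comap (FinG R φ I).subtype)
    (fun K K' h x hx => ⟨hx.1, hx.2.mono h⟩) ?_ ?_
  · rintro ⟨x, hx, K, hK⟩
    exact ⟨K, hx, hK⟩
  · intro K
    refine hC.of_injective _ (Isom R φ {i // i ∈ K})
      ((cutHom K hφ).comp
        { toFun := fun x => (⟨x.1.1, x.2⟩ : PK R φ I K)
          map_one' := rfl
          map_mul' := fun _ _ => rfl }) ?_
      (isom_congr C hC (Finite.equivFin {i // i ∈ K}) (hU _))
    refine (cutHom_injective K hφ).comp ?_
    intro x y hxy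
    have h1 : (x.1.1 : (I →₀ M) ≃ₗ[R] (I →₀ M)) = y.1.1 :=
      congrArg (fun z : PK R φ I K => (z : (I →₀ M) ≃ₗ[R] (I →₀ M))) hxy
    exact Subtype.ext (Subtype.ext h1)

end basic

end Pool.Agent.U863.FK
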