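import Pool.Agent.U863.FK.Isom

/-!
# Extensions with kernels of finitary isometries

Owner helper863.
-/

set_option autoImplicit false

namespace Pool.Agent.U863.FK

open Pool.Agent.Y110.FJ

section two

variable {R M S : Type} [Ring R] [AddCommGroup M] [Module R M] [AddCommMonoid S] {k : ℕ}
  {φ : (Fin k → M) → S} {I : Type}

/-- the two components -/
noncomputable def LL (v : (I ⊕ I) →₀ M) : I →₀ M := (Finsupp.sumFinsuppLEquivProdFinsupp R v).1

/-- `g` on the first copy and `h` on the second copy -/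
noncomputable def act2 (g h : (I →₀ M) ≃ₗ[R] (I →₀ M)) :
    ((I ⊕ I) →₀ M) ≃ₗ[R] ((I ⊕ I) →₀ M) :=
  ((Finsupp.sumFinsuppLEquivProdFinsupp R).trans (g.prodCongr h)).trans
    (Finsupp.sumFinsuppLEquivProdFinsupp R).symm

/-- the first component -/
noncomputable def p1 (R : Type) {M : Type} [Ring R] [AddCommGroup M] [Module R M] {I : Type}
    (v : (I ⊕ I) →₀ M) : I →₀ M := (Finsupp.sumFinsuppLEquivProdFinsupp R v).1

/-- the second component -/
noncomputable def p2 (R : Type) {M : Type} [Ring R] [AddCommGroup M] [Module R M] {I : Type}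
    (v : (I ⊕ I) →₀ M) : I →₀ M := (Finsupp.sumFinsuppLEquivProdFinsupp R v).2

theorem p1_apply (v : (I ⊕ I) →₀ M) (i : I) : p1 R v i = v (Sum.inl i) :=
  Finsupp.fst_sumFinsuppLEquivProdFinsupp R v i

theorem p2_apply (v : (I ⊕ I) →₀ M) (i : I) : p2 R v i = v (Sum.inr i) :=
  Finsupp.snd_sumFinsuppLEquivProdFinsupp R v i

theorem act2_inl (g h : (I →₀ M) ≃ₗ[R] (I →₀ M)) (v : (I ⊕ I) →₀ M) (i : I) :
    act2 g h v (Sum.inl i) = g (p1 R v) i :=
  Finsupp.sumFinsuppLEquivProdFinsupp_symm_inl R _ i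

theorem act2_inr (g h : (I →₀ M) ≃ₗ[R] (I →₀ M)) (v : (I ⊕ I) →₀ M) (i : I) :
    act2 g h v (Sum.inr i) = h (p2 R v) i :=
  Finsupp.sumFinsuppLEquivProdFinsupp_symm_inr R _ i

theorem p1_act2 (g h : (I →₀ M) ≃ₗ[R] (I →₀ M)) (v : (I ⊕ I) →₀ M) :
    p1 R (act2 g h v) = g (p1 R v) := by
  ext i
  rw [p1_apply, act2_inl]

theorem p2_act2 (g h : (I →₀ M) ≃ₗ[R] (I →₀ M)) (v : (I ⊕ I) →₀ M) :
    p2 R (act2 g h v) = h (p2 R v) := by
  ext i
  rw [p2_apply, act2_inr]

theorem ext2 {v w : (I ⊕ I) →₀ M} (h1 : p1 R v = p1 R w) (h2 : p2 R v = p2 R w) : v = w := by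
  ext z
  rcases z with i | i
  · rw [← p1_apply (R := R), h1, p1_apply]
  · rw [← p2_apply (R := R), h2, p2_apply]

theorem act2_mul (g h g' h' : (I →₀ M) ≃ₗ[R] (I →₀ M)) :
    act2 (g * g') (h * h') = act2 g h * act2 g' h' := by
  apply LinearEquiv.ext
  intro v
  refine ext2 (R := R) ?_ ?_
  · show p1 R (act2 (g * g') (h * h') v) = p1 R (act2 g h (act2 g' h' v))
    rw [p1_act2, p1_act2, p1_act2]
    rfl
  · show p2 R (act2 (g * g') (h * h') v) = p2 R (act2 g h (act2 g' h' v))
    rw [p2_act2, p2_act2, p2_act2]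
    rfl

theorem act2_one : act2 (1 : (I →₀ M) ≃ₗ[R] (I →₀ M)) 1 = 1 := by
  apply LinearEquiv.ext
  intro v
  refine ext2 (R := R) ?_ ?_
  · rw [p1_act2]; rfl
  · rw [p2_act2]; rfl

theorem form_two (hφ : φ 0 = 0) (v : Fin k → ((I ⊕ I) →₀ M)) :
    form φ v = form φ (fun a => p1 R (v a)) + form φ (fun a => p2 R (v a)) := by
  classical
  have h1 := form_finite hφ (fun a => p1 R (v a))
  have h2 := form_finite hφ (fun a => p2 R (v a))
  set T : Finset I := h1.toFinset ∪ h2.toFinset with hT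
  rw [form, form, form, finsum_eq_sum_of_support_subset (s := T) _ ?_,
    finsum_eq_sum_of_support_subset (s := T) _ ?_,
    finsum_eq_sum_of_support_subset (s := T.disjSum T) _ ?_, Finset.sum_disjSum]
  · exact congrArg₂ (· + ·) (Finset.sum_congr rfl fun i _ => rfl)
      (Finset.sum_congr rfl fun i _ => rfl)
  · intro z hz
    rcases z with i | i
    · have h3 : i ∈ h1.toFinset := by
        rw [Set.Finite.mem_toFinset]
        exact hz
      rw [Finset.mem_coe, Finset.inl_mem_disjSum, hT]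
      exact Finset.mem_union_left _ h3
    · have h3 : i ∈ h2.toFinset := by
        rw [Set.Finite.mem_toFinset]
        exact hz
      rw [Finset.mem_coe, Finset.inr_mem_disjSum, hT]
      exact Finset.mem_union_right _ h3
  · intro i hi
    rw [Finset.mem_coe, hT]
    exact Finset.mem_union_right _ (by rw [Set.Finite.mem_toFinset]; exact hi)
  · intro i hi
    rw [Finset.mem_coe, hT]
    exact Finset.mem_union_left _ (by rw [Set.Finite.mem_toFinset]; exact hi)

theorem act2_isom (hφ : φ 0 = 0) {g : (I →₀ M) ≃ₗ[R] (I →₀ M)} (hg : g ∈ Isom R φ I) :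
    act2 g 1 ∈ Isom R φ (I ⊕ I) := by
  intro v
  rw [form_two (R := R) hφ, form_two (R := R) hφ v, ← hg fun a => p1 R (v a)]
  have h1 : (fun a => p1 R (act2 g 1 (v a))) = fun a => g (p1 R (v a)) :=
    funext fun a => p1_act2 g 1 (v a)
  have h2 : (fun a => p2 R (act2 g 1 (v a))) = fun a => p2 R (v a) :=
    funext fun a => p2_act2 g 1 (v a)
  rw [h1, h2]

theorem act2_supp {K : Finset I} {g : (I →₀ M) ≃ₗ[R] (I →₀ M)} (hg : Supp K g) :
    Supp (K.disjSum K) (act2 g 1) := by
  refine ⟨fun v hv => ?_, fun v z hz => ?_⟩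
  · refine ext2 (R := R) ?_ ?_
    · rw [p1_act2]
      refine hg.1 _ fun i hi => ?_
      rw [p1_apply]
      exact hv _ (Finset.inl_mem_disjSum.2 hi)
    · rw [p2_act2]
      rfl
  · rcases z with i | i
    · rw [act2_inl, hg.2 _ i (fun h => hz (Finset.inl_mem_disjSum.2 h)), p1_apply]
    · rw [act2_inr]
      show p2 R v i = _
      rw [p2_apply]

theorem act2_symm (g : (I →₀ M) ≃ₗ[R] (I →₀ M)) : (act2 g 1).symm = act2 g⁻¹ 1 := by
  have h1 : act2 g⁻¹ 1 * act2 g 1 = 1 := by
    rw [← act2_mul, inv_mul_cancel, one_mul, act2_one]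
  exact (eq_inv_of_mul_eq_one_left h1).symm

theorem act2_bifinite {g : (I →₀ M) ≃ₗ[R] (I →₀ M)} (hg : BiFinite g) :
    BiFinite (act2 g (1 : (I →₀ M) ≃ₗ[R] (I →₀ M))) := by
  classical
  intro J
  set J1 : Finset I := J.toLeft ∪ J.toRight with hJ1
  obtain ⟨J', h1, h2⟩ := hg J1
  refine ⟨(J' ∪ J1).disjSum (J' ∪ J1), ?_, ?_⟩
  · intro v hv z hz
    rcases z with i | i
    · rw [act2_inl]
      refine h1 _ (fun l hl => ?_) i fun h => hz (Finset.inl_mem_disjSum.2
        (Finset.mem_union_left _ h))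
      rw [p1_apply]
      refine hv _ fun h => hl ?_
      exact Finset.mem_union_left _ (Finset.mem_toLeft.2 h)
    · rw [act2_inr]
      show p2 R v i = 0
      rw [p2_apply]
      refine hv _ fun h => hz (Finset.inr_mem_disjSum.2 (Finset.mem_union_right _ ?_))
      exact Finset.mem_union_right _ (Finset.mem_toRight.2 h)
  · intro v hv z hz
    rw [act2_symm]
    rcases z with i | i
    · rw [act2_inl]
      refine h2 _ (fun l hl => ?_) i (Finset.mem_union_left _ (Finset.mem_toLeft.2 hz))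
      rw [p1_apply]
      exact hv _ (Finset.inl_mem_disjSum.2 (Finset.mem_union_left _ hl))
    · rw [act2_inr]
      show p2 R v i = 0
      rw [p2_apply]
      exact hv _ (Finset.inr_mem_disjSum.2 (Finset.mem_union_right _
        (Finset.mem_union_right _ (Finset.mem_toRight.2 hz))))

/-! ### the swap -/

open Classical in
/-- the swap of the coordinates in `J` -/
noncomputable def swp (J : Finset I) : I ⊕ I → I ⊕ I
  | Sum.inl i => if i ∈ J then Sum.inr i else Sum.inl i
  | Sum.inr i => if i ∈ J then Sum.inl i else Sum.inr i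

theorem swp_swp (J : Finset I) (z : I ⊕ I) : swp J (swp J z) = z := by
  rcases z with i | i
  · by_cases h : i ∈ J <;> simp [swp, h]
  · by_cases h : i ∈ J <;> simp [swp, h]

/-- the swap as a permutation -/
noncomputable def swpE (J : Finset I) : Equiv.Perm (I ⊕ I) := ⟨swp J, swp J, swp_swp J, swp_swp J⟩

variable (R M) in
/-- the swap as a linear map -/
noncomputable def tau (J : Finset I) : ((I ⊕ I) →₀ M) ≃ₗ[R] ((I ⊕ I) →₀ M) :=
  Finsupp.domLCongr (swpE J)

theorem tau_apply (J : Finset I) (v : (I ⊕ I) →₀ M) (z : I ⊕ I) :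
    tau R M J v z = v (swp J z) := by
  show (Finsupp.domLCongr (swpE J) v : (I ⊕ I) →₀ M) z = _
  rw [Finsupp.domLCongr_apply, Finsupp.domCongr_apply, Finsupp.equivMapDomain_apply]
  rfl

theorem tau_tau (J : Finset I) : tau R M J * tau R M J = 1 := by
  apply LinearEquiv.ext
  intro v
  ext z
  show tau R M J (tau R M J v) z = v z
  rw [tau_apply, tau_apply, swp_swp]

theorem tau_inv (J : Finset I) : (tau R M J)⁻¹ = tau R M J :=
  inv_eq_of_mul_eq_one_left (tau_tau J)

theorem tau_mem (J : Finset I) : tau R M J ∈ FinG R φ (I ⊕ I) := by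
  classical
  refine ⟨fun v => ?_, J.disjSum J, ?_, ?_⟩
  · rw [form, form, ← finsum_comp_equiv (swpE J) (f := fun i => φ fun a => v a i)]
    exact finsum_congr fun z => congrArg φ (funext fun a => tau_apply J (v a) z)
  · intro v hv
    ext z
    rw [tau_apply]
    rcases z with i | i
    · by_cases h : i ∈ J
      · rw [hv _ (Finset.inl_mem_disjSum.2 h)]
        simp only [swp, h, if_true]
        exact hv _ (Finset.inr_mem_disjSum.2 h)
      · simp [swp, h]
    · by_cases h : i ∈ J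
      · rw [hv _ (Finset.inr_mem_disjSum.2 h)]
        simp only [swp, h, if_true]
        exact hv _ (Finset.inl_mem_disjSum.2 h)
      · simp [swp, h]
  · intro v z hz
    rw [tau_apply]
    rcases z with i | i
    · have h : i ∉ J := fun h => hz (Finset.inl_mem_disjSum.2 h)
      simp [swp, h]
    · have h : i ∉ J := fun h => hz (Finset.inr_mem_disjSum.2 h)
      simp [swp, h]

/-- the swap moves an element with coordinates in `J` to the second copy -/
theorem tau_conj (J : Finset I) {x : (I →₀ M) ≃ₗ[R] (I →₀ M)} (hx : Supp J x) :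
    tau R M J * act2 x 1 * (tau R M J)⁻¹ = act2 1 x := by
  rw [tau_inv]
  apply LinearEquiv.ext
  intro v
  ext z
  show tau R M J (act2 x 1 (tau R M J v)) z = act2 1 x v z
  rw [tau_apply]
  rcases z with i | i
  · rw [act2_inl]
    show _ = p1 R v i
    rw [p1_apply]
    by_cases h : i ∈ J
    · have h1 : swp J (Sum.inl i) = Sum.inr i := by simp [swp, h]
      rw [h1, act2_inr]
      show p2 R (tau R M J v) i = _
      rw [p2_apply, tau_apply]
      simp [swp, h]
    · have h1 : swp J (Sum.inl i) = Sum.inl i := by simp [swp, h]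
      rw [h1, act2_inl, hx.2 _ i h, p1_apply, tau_apply, h1]
  · rw [act2_inr]
    by_cases h : i ∈ J
    · have h1 : swp J (Sum.inr i) = Sum.inl i := by simp [swp, h]
      rw [h1, act2_inl]
      have h2 : x (p1 R (tau R M J v) - p2 R v) = p1 R (tau R M J v) - p2 R v := by
        refine hx.1 _ fun l hl => ?_
        rw [Finsupp.sub_apply, p1_apply, p2_apply, tau_apply]
        simp [swp, hl]
      rw [map_sub] at h2
      have h3 := congrArg (fun w : I →₀ M => w i) h2
      simp only [Finsupp.sub_apply] at h3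
      have h4 : p1 R (tau R M J v) i - p2 R v i = 0 := by
        rw [p1_apply, p2_apply, tau_apply]
        simp [swp, h]
      rw [h4] at h3
      exact sub_eq_zero.1 h3
    · have h1 : swp J (Sum.inr i) = Sum.inr i := by simp [swp, h]
      rw [h1, act2_inr, hx.2 _ i h]
      show p2 R (tau R M J v) i = _
      rw [p2_apply, p2_apply, tau_apply, h1]

end two

/-- **kernels of finitary isometries** -/
theorem finitary_main (C : ∀ (G : Type) [Group G], Prop) (hC : ClosedE C)
    (R M S : Type) [Ring R] [AddCommGroup M] [Module R M] [AddCommMonoid S] (k : ℕ)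
    (φ : (Fin k → M) → S) (hφ : φ 0 = 0) (hU : ∀ n : ℕ, C (Isom R φ (Fin n)))
    (I G : Type) [Group G] (N : Subgroup G) [N.Normal] (hQ : C (G ⧸ N))
    (ρ : G →* ((I →₀ M) ≃ₗ[R] (I →₀ M))) (hρ : ∀ g, ρ g ∈ Isom R φ I ∧ BiFinite (ρ g))
    (hN : ∀ n ∈ N, Finitary (ρ n) ∧ (ρ n = 1 → n = 1)) : C G := by
  classical
  let j : G →* (((I ⊕ I) →₀ M) ≃ₗ[R] ((I ⊕ I) →₀ M)) :=
    { toFun := fun g => act2 (ρ g) 1
      map_one' := by rw [map_one, act2_one]
      map_mul' := fun g h => by rw [map_mul, ← act2_mul, one_mul] }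
  refine displaced C hC G N hQ _ (FinG R φ (I ⊕ I)) (C_FinG C hC.base hφ hU) j ?_ ?_ ?_ ?_
  · intro n hn h
    refine (hN n hn).2 ?_
    apply LinearEquiv.ext
    intro v
    obtain ⟨u, hu⟩ : ∃ u : (I ⊕ I) →₀ M, p1 R u = v := by
      refine ⟨(Finsupp.sumFinsuppLEquivProdFinsupp R).symm (v, 0), ?_⟩
      rw [p1, LinearEquiv.apply_symm_apply]
    have h1 : act2 (ρ n) 1 u = u := congrArg (fun z : _ ≃ₗ[R] _ => z u) h
    have h2 := congrArg (p1 R) h1
    rw [p1_act2, hu] at h2
    exact h2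
  · intro n hn
    obtain ⟨K, hK⟩ := (hN n hn).1
    exact ⟨act2_isom hφ (hρ n).1, _, act2_supp hK⟩
  · rintro g x ⟨hx, hx'⟩
    exact ⟨mul_mem (mul_mem (act2_isom hφ (hρ g).1) hx) (inv_mem (act2_isom hφ (hρ g).1)),
      hx'.conj (act2_bifinite (hρ g).2)⟩
  · intro g E hE hEN
    have h1 : ∀ x ∈ E, ∃ K : Finset I, Supp K (ρ x) := fun x hx => (hN x (hEN hx)).1
    choose! K hK using h1
    set J : Finset I := hE.toFinset.biUnion K with hJ
    refine ⟨tau R M J, tau_mem J, fun x hx => ?_⟩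
    have h2 : Supp J (ρ x) := by
      refine (hK x hx).mono ?_
      rw [hJ]
      exact Finset.subset_biUnion_of_mem K (hE.mem_toFinset.2 hx)
    show Commute (tau R M J * act2 (ρ x) 1 * (tau R M J)⁻¹) (act2 (ρ g) 1)
    rw [tau_conj J h2]
    show act2 1 (ρ x) * act2 (ρ g) 1 = act2 (ρ g) 1 * act2 1 (ρ x)
    rw [← act2_mul, ← act2_mul, one_mul, mul_one, one_mul, mul_one]

end Pool.Agent.U863.FK
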